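import Pool.Agent.Q151.MM.Sigma

/-!
# MP_bb77e0_gt: the space of mm-spaces with the concentration topology is not σ-compact
-/

namespace Pool.Agent.Results.MP_bb77e0_gt.NotSigmaCompact

open Pool.Agent.Q151.MM Set

/-- `(𝒳, d_conc)` is not `σ`-compact, that is, it is not a countable union of compact sets. -/
theorem result : ¬ SigmaCompactSpace ConcSpace ∧
    ¬ ∃ K : ℕ → Set ConcSpace, (∀ n, IsCompact (K n)) ∧ (⋃ n, K n) = univ :=
  ⟨not_sigmaCompact, fun ⟨K, hK, hKu⟩ => not_sigmaCompact ⟨K, hK, hKu⟩⟩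

end Pool.Agent.Results.MP_bb77e0_gt.NotSigmaCompact
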